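import Mathlib

set_option autoImplicit false

namespace Pool.Agent.Results.MP_6004b5_an.NotMoebius

open Complex MeasureTheory Metric Set ComplexConjugate

/-- Sense-preserving univalent harmonic self-mappings of the unit disk. -/
def InH (f : ℂ → ℂ) : Prop :=
  (∃ h g : ℂ → ℂ, DifferentiableOn ℂ h (ball 0 1) ∧ DifferentiableOn ℂ g (ball 0 1) ∧
    (∀ z ∈ ball (0 : ℂ) 1, f z = h z + conj (g z)) ∧
    ∀ z ∈ ball (0 : ℂ) 1, 0 < ‖deriv h z‖ ^ 2 - ‖deriv g z‖ ^ 2) ∧
  InjOn f (ball 0 1) ∧ MapsTo f (ball 0 1) (ball 0 1)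

/-- The conformal automorphisms of the unit disk. -/
noncomputable def aut (θ : ℝ) (a z : ℂ) : ℂ := exp (I * θ) * ((z - a) / (1 - conj a * z))

/-- The real-linear map `v ↦ A v + B conj v`. -/
noncomputable def L (A B : ℂ) : ℂ →L[ℝ] ℂ :=
  A • ContinuousLinearMap.id ℝ ℂ + B • (conjCLE : ℂ →L[ℝ] ℂ)

theorem detL (A B : ℂ) : (L A B).det = normSq A - normSq B := by
  rw [ContinuousLinearMap.det, ← LinearMap.det_toMatrix basisOneI, Matrix.det_fin_two]
  simp [LinearMap.toMatrix_apply, L, normSq_apply]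
  ring

theorem hasL {h : ℂ → ℂ} {A z : ℂ} (hh : HasDerivAt h A z) (B : ℂ) :
    HasFDerivAt (fun w => h w + B * conj w) (L A B) z := by
  have h1 := hh.hasFDerivAt.restrictScalars ℝ
  have h2 := ((conjCLE : ℂ →L[ℝ] ℂ).hasFDerivAt (x := z)).const_smul B
  have e : L A B = (ContinuousLinearMap.toSpanSingleton ℂ A).restrictScalars ℝ +
      B • (conjCLE : ℂ →L[ℝ] ℂ) := by
    refine ContinuousLinearMap.ext fun v => ?_
    simp [L, mul_comm]
  rw [e]
  exact h1.add h2

/-- The harmonic map. -/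
noncomputable def F (z : ℂ) : ℂ := 199 / 200 * (z + z ^ 3 / 20) + (-199 / 4000) * conj z

theorem dh (z : ℂ) : HasDerivAt (fun z : ℂ => 199 / 200 * (z + z ^ 3 / 20))
    (199 / 200 * (1 + 3 * z ^ 2 / 20)) z := by
  have := (((hasDerivAt_id' z).add (((hasDerivAt_id' z).pow 3).div_const 20)).const_mul
    (199 / 200 : ℂ))
  exact this.congr_deriv (by simp)

theorem injF : InjOn F (ball 0 1) := by
  intro z hz w hw h
  rw [mem_ball_zero_iff] at hz hw
  have h1 : z - w = (conj (z - w) - (z - w) * (z ^ 2 + z * w + w ^ 2)) / 20 := by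
    simp only [F] at h
    rw [map_sub]
    linear_combination (200 / 199 : ℂ) * h
  have h2 : ‖z ^ 2 + z * w + w ^ 2‖ ≤ 3 := by
    refine (norm_add₃_le).trans ?_
    rw [norm_pow, norm_pow, norm_mul]
    nlinarith [norm_nonneg z, norm_nonneg w]
  have h3 : ‖z - w‖ ≤ (‖z - w‖ + ‖z - w‖ * 3) / 20 := by
    conv_lhs => rw [h1]
    rw [norm_div, show ‖(20 : ℂ)‖ = 20 by simp]
    gcongr
    refine (norm_sub_le _ _).trans ?_
    rw [norm_mul, norm_conj]
    gcongr
  have h4 : ‖z - w‖ = 0 := by linarith [norm_nonneg (z - w)]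
  exact sub_eq_zero.1 (norm_eq_zero.1 h4)

theorem mapsF : MapsTo F (ball 0 1) (ball 0 1) := by
  intro z hz
  rw [mem_ball_zero_iff] at hz ⊢
  have hm : normSq z < 1 := by
    rw [normSq_eq_norm_sq]; nlinarith [norm_nonneg z]
  suffices normSq (F z) < 1 by
    rw [normSq_eq_norm_sq] at this; nlinarith [norm_nonneg (F z)]
  obtain ⟨x, y⟩ := z
  have e : normSq (F ⟨x, y⟩) = (199 / 200) ^ 2 * ((x * x + y * y) +
      ((x * x + y * y) - 1) * (x * x - y * y) / 10 + (x * x + y * y) *
      ((x * x + y * y - 1) ^ 2) / 400 + (x * x + y * y) * (x * x + y * y) * 4 / 400 -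
      (x * x - y * y) ^ 2 * 4 / 400) := by
    simp [F, normSq_apply, pow_succ]
    ring
  rw [normSq_apply] at hm
  simp only at hm
  rw [e]
  have hx := mul_self_nonneg x
  have hy := mul_self_nonneg y
  generalize x * x = p at *
  generalize y * y = q at *
  have h1 : ((p + q) - 1) * (p - q) ≤ 1 - (p + q) := by nlinarith
  have h2 : (p + q) * (p + q - 1) ^ 2 ≤ 1 - (p + q) := by nlinarith
  have h3 : (p + q) * (p + q) < 1 := by nlinarith
  nlinarith [sq_nonneg (p - q)]

theorem inH : InH F := by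
  refine ⟨⟨fun z => 199 / 200 * (z + z ^ 3 / 20), fun z => (-199 / 4000) * z, by fun_prop,
    by fun_prop, fun z _ => by simp [F, map_ofNat], fun z hz => ?_⟩, injF, mapsF⟩
  rw [mem_ball_zero_iff] at hz
  rw [(dh z).deriv, ((hasDerivAt_id' z).const_mul (-199 / 4000 : ℂ)).deriv]
  have h1 : 1 - 3 / 20 ≤ ‖1 + 3 * z ^ 2 / 20‖ := by
    have := norm_sub_le (1 + 3 * z ^ 2 / 20) (3 * z ^ 2 / 20)
    rw [add_sub_cancel_right, norm_one, norm_div, norm_mul, norm_pow] at this
    simp only [norm_ofNat] at this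
    nlinarith [norm_nonneg z]
  rw [norm_mul]
  simp only [mul_one, norm_div, norm_neg, norm_ofNat]
  nlinarith

theorem two (s x y : ℝ) (hs : s < 1) (hm : 16 * (x * x + y * y) ≤ s) :
    (1 - s) ^ 2 / ((1 - x) * (1 - x) + y * y) ^ 2 +
      (1 - s) ^ 2 / ((1 + x) * (1 + x) + y * y) ^ 2 ≤ 2 := by
  have hx := mul_self_nonneg x
  have hy := mul_self_nonneg y
  set m := x * x + y * y with hmd
  have hm0 : 0 ≤ m := by positivity
  have hm1 : m < 1 / 16 := by linarith
  have hxm : x * x ≤ m := by linarith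
  have hx1 : x < 1 / 4 := by nlinarith
  have hx2 : -1 / 4 < x := by nlinarith
  have hp : 0 < (1 - x) * (1 - x) + y * y := by nlinarith
  have hq : 0 < (1 + x) * (1 + x) + y * y := by nlinarith
  rw [div_add_div _ _ (by positivity) (by positivity), div_le_iff₀ (by positivity)]
  have e1 : (1 - x) * (1 - x) + y * y = 1 + m - 2 * x := by rw [hmd]; ring
  have e2 : (1 + x) * (1 + x) + y * y = 1 + m + 2 * x := by rw [hmd]; ring
  rw [e1, e2]
  have h1 : (1 - s) ^ 2 ≤ (1 - 16 * m) ^ 2 := by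
    apply pow_le_pow_left₀ <;> linarith
  have h2 : (1 - m) ^ 2 ≤ (1 + m - 2 * x) * (1 + m + 2 * x) := by nlinarith
  have h3 : ((1 - m) ^ 2) ^ 2 ≤ ((1 + m - 2 * x) * (1 + m + 2 * x)) ^ 2 :=
    pow_le_pow_left₀ (by positivity) h2 2
  have h4 : (1 + m + 2 * x) ^ 2 + (1 + m - 2 * x) ^ 2 ≤ 2 * (1 + 7 * m) := by nlinarith
  have h5 : (1 - 16 * m) ^ 2 * (1 + 7 * m) ≤ 1 - 4 * m := by nlinarith [mul_nonneg hm0 hm0]
  have h6 : 1 - 4 * m ≤ ((1 - m) ^ 2) ^ 2 := by
    nlinarith [mul_nonneg hm0 hm0, sq_nonneg (m * m), mul_nonneg hm0 (mul_nonneg hm0 hm0)]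
  calc (1 - s) ^ 2 * (1 + m + 2 * x) ^ 2 + (1 + m - 2 * x) ^ 2 * (1 - s) ^ 2
      = (1 - s) ^ 2 * ((1 + m + 2 * x) ^ 2 + (1 + m - 2 * x) ^ 2) := by ring
    _ ≤ (1 - 16 * m) ^ 2 * (2 * (1 + 7 * m)) := by gcongr
    _ ≤ 2 * ((1 + m - 2 * x) * (1 + m + 2 * x)) ^ 2 := by linarith
    _ = _ := by ring

theorem result : ∃ E : Set ℂ, E ⊆ ball 0 (1 / 4) ∧ IsOpen E ∧ ∃ f, InH f ∧
    volume E < volume (f '' E) ∧
    ∀ (θ : ℝ) (a : ℂ), ‖a‖ < 1 → volume (aut θ a '' E) ≤ volume E := by
  set J : ℂ → ℝ := fun z => normSq (199 / 200 * (1 + 3 * z ^ 2 / 20)) - normSq (-199 / 4000)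
    with hJ
  set E : Set ℂ := ball 0 (1 / 4) ∩ {z | 1001 / 1000 < J z} with hE
  have hJc : Continuous J := by rw [hJ]; fun_prop
  have hO : IsOpen E := isOpen_ball.inter (isOpen_lt continuous_const hJc)
  have hM := hO.measurableSet
  have hfin : volume E ≠ ⊤ :=
    ((measure_mono inter_subset_left).trans_lt measure_ball_lt_top).ne
  refine ⟨E, inter_subset_left, hO, F, inH, ?_, fun θ a ha => ?_⟩
  · have hpos : volume E ≠ 0 := by
      refine (hO.measure_pos volume ⟨6 / 25, ?_, ?_⟩).ne'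
      · rw [mem_ball_zero_iff]; norm_num
      · simp only [mem_ofPred_eq, hJ]
        norm_num [normSq_apply]
    rw [← lintegral_abs_det_fderiv_eq_addHaar_image (f := F) volume hM
      (fun z _ => (hasL (dh z) (-199 / 4000)).hasFDerivWithinAt)
      (injF.mono (inter_subset_left.trans (ball_subset_ball (by norm_num))))]
    calc volume E = 1 * volume E := (one_mul _).symm
      _ < ENNReal.ofReal (1001 / 1000) * volume E :=
        ENNReal.mul_lt_mul_left hpos hfin (ENNReal.one_lt_ofReal.2 (by norm_num))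
      _ = ∫⁻ _ in E, ENNReal.ofReal (1001 / 1000) := (setLIntegral_const _ _).symm
      _ ≤ _ := by
        refine setLIntegral_mono' hM fun z hz => ENNReal.ofReal_le_ofReal ?_
        rw [detL]
        exact (le_of_lt hz.2).trans (le_abs_self _)
  · set K : ℂ → ℝ := fun z => (1 - normSq a) ^ 2 / normSq (1 - conj a * z) ^ 2 with hK
    have hne : ∀ z ∈ E, 1 - conj a * z ≠ 0 := by
      intro z hz h
      have h1 : ‖conj a * z‖ = 1 := by rw [← sub_eq_zero.1 h, norm_one]
      have h2 := mem_ball_zero_iff.1 hz.1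
      rw [norm_mul, norm_conj] at h1
      nlinarith [norm_nonneg a, norm_nonneg z]
    have hd : ∀ z ∈ E, HasFDerivWithinAt (aut θ a)
        (L (exp (I * θ) * ((1 - normSq a : ℝ) / (1 - conj a * z) ^ 2)) 0) E z := by
      intro z hz
      have h1 := (((hasDerivAt_id' z).sub_const a).div
        (((hasDerivAt_id' z).const_mul (conj a)).const_sub 1) (hne z hz)).const_mul (exp (I * θ))
      have h2 := (hasL h1 0).hasFDerivWithinAt (s := E)
      convert h2 using 1
      · ext w; simp [aut]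
      · congr 3
        push_cast
        rw [normSq_eq_conj_mul_self]
        ring
    refine (addHaar_image_le_lintegral_abs_det_fderiv volume hM hd).trans ?_
    have hKm : Measurable fun z => ENNReal.ofReal (K z) := by
      rw [hK]; fun_prop
    have e1 : ∫⁻ z in E, ENNReal.ofReal |(L (exp (I * θ) * ((1 - normSq a : ℝ) /
        (1 - conj a * z) ^ 2)) 0).det| = ∫⁻ z in E, ENNReal.ofReal (K z) := by
      refine lintegral_congr fun z => ?_
      rw [detL, map_zero, sub_zero, abs_of_nonneg (normSq_nonneg _), map_mul, map_div₀, map_pow,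
        normSq_ofReal, normSq_eq_norm_sq (exp _), mul_comm I, norm_exp_ofReal_mul_I, hK]
      congr 1
      ring
    have e2 : ∫⁻ z in E, ENNReal.ofReal (K z) = ∫⁻ z in E, ENNReal.ofReal (K (-z)) := by
      rw [← lintegral_indicator hM, ← lintegral_indicator hM, ← lintegral_neg_eq_self]
      refine lintegral_congr fun z => ?_
      have : -z ∈ E ↔ z ∈ E := by simp [hE, hJ]
      by_cases h : z ∈ E
      · rw [indicator_of_mem h, indicator_of_mem (this.2 h)]
      · rw [indicator_of_notMem h, indicator_of_notMem (mt this.1 h)]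
    rw [e1, ← ENNReal.mul_le_mul_iff_right (a := 2) (by norm_num) (by norm_num), two_mul]
    nth_rewrite 2 [e2]
    rw [← lintegral_add_left hKm, ← setLIntegral_const]
    refine setLIntegral_mono' hM fun z hz => ?_
    rw [← ENNReal.ofReal_add (by rw [hK]; positivity) (by rw [hK]; positivity),
      ← ENNReal.ofReal_ofNat]
    refine ENNReal.ofReal_le_ofReal ?_
    have h2 := mem_ball_zero_iff.1 hz.1
    have h3 : 16 * normSq (conj a * z) ≤ normSq a := by
      rw [map_mul, normSq_conj, normSq_eq_norm_sq z]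
      have : ‖z‖ ^ 2 ≤ 1 / 16 := by nlinarith [norm_nonneg z]
      nlinarith [normSq_nonneg a]
    have h4 : normSq a < 1 := by rw [normSq_eq_norm_sq]; nlinarith [norm_nonneg a]
    have := two (normSq a) (conj a * z).re (conj a * z).im h4 (by rwa [← normSq_apply])
    simp only [hK, mul_neg, sub_neg_eq_add]
    rw [normSq_apply (1 - _), normSq_apply (1 + _), sub_re, sub_im, add_re, add_im, one_re, one_im,
      zero_sub, zero_add, neg_mul_neg]
    exact this

end Pool.Agent.Results.MP_6004b5_an.NotMoebius
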